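import Pool.Agent.Helper3.UF.Xo

/-! ROW B_H3 (a): a factor is full in its robust volume over EVERY exact label of the window, on all events of all
extensions. -/

set_option autoImplicit false

namespace Pool.Agent.Helper3.H3

open Finset Filter Topology Matrix Pool.Agent.Helper69.RK Pool.Agent.Helper31.EC Pool.Agent.Helper40.EL
open Pool.Agent.Helper31.EC.Sp
open Pool.Agent.Helper95.LF Pool.Agent.Helper3.LF Pool.Agent.Helper48.NS Pool.Agent.Helper89.LX
open Pool.Agent.Helper48.LIP Pool.Agent.Helper39.LIP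
open Pool.Agent.Helper3.PR Pool.Agent.Helper3.UF
open Pool.Agent.Helper3.SG (Fac)
open Pool.Agent.Helper59.EV (ST)
open Pool.Agent.Helper52.SL (lvolP)

noncomputable section

variable {S : Sp} {m r D : ℕ}

/-- the identity -/
def idF (F : FSp) : FPj F F where
  π := fun ω => ω
  law := by
    funext ω
    classical
    unfold push
    rw [Finset.sum_eq_single ω]
    · simp
    · intro b _ hb
      rw [if_neg hb]
    · intro h
      exact absurd (Finset.mem_univ _) h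
  hZ := fun _ _ _ _ => Iff.rfl

theorem idF_map {F : FSp} (y : FL F) : (idF F).map y = y := by
  induction y using fc_ind
  rfl

/-- fullness over a label with forms: finite form -/
theorem fin_full {s : Sys S m} {x : ∀ k, FD (S.F k) (Mon (m + 1) D)}
    (hcp : ∀ᶠ k in UF, ∀ ω, (x k).l.T.μ ω ≠ 0 → Cpd ((gau s D).cp k) ((x k).g ω))
    (hful : ∀ (T : Sp) (q : Pj T ((lb x).ovr 1 one_pos)) (E : ∀ k, (T.F k).Ω → Prop) (hE : 0 < ul (T.pr E)),
      m - ul (fun k => avg (T.rest E) (fun k ω => vx s k ((x k).g (q.π k ω)) ((x k).l.p.π (q.π k ω))) k /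
        (S.F k).n) / 2 ≤
      h (restL E hE (q.map (up1 (lb x) (s.P.dg 1)))) (restL E hE (q.map (up1 (lb x) s.T))))
    (T : ℕ → FSp) (ρ : ∀ k, FPj (T k) (x k).l.T) (hn : ∀ k, (T k).n = (S.F k).n)
    (E : ∀ k, (T k).Ω → Prop) (hE : 0 < ul (fun k => (T k).pb (E k))) (e : ℝ) (he : 0 < e) :
    ∀ᶠ k in UF, (m - e) * (S.F k).n - (1 / 2) * ∑ ω, ((T k).rest (E k)).μ ω * Real.logb 2 (GG (S.dl 1 k)
        ((x k).g ((ρ k).π ω)) (ptf s k ((x k).l.p.π ((ρ k).π ω)))) ≤
      h ((T k).rmap (E k) ((ρ k).map ((x k).l.p.map (qP s k))))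
        ((T k).rmap (E k) ((ρ k).map (x k).l.v) ⊔
          (T k).rmap (E k) ((ρ k).map ((x k).l.p.map (qT s k)))) := by
  set l : Lab S := lb x with hl
  set T1 := (extT T hn).chg (fun k => Setoid.comap (ρ k).π (l k).V) 1 one_pos with hT1
  have hE1 : 0 < ul (T1.pr E) := hE
  have h2 := hful T1 (extP l T ρ hn) E hE1
  have e1 : s.P.dg 1 = cl (s.IP 1) := (s.cl_IP 1).symm
  have e2 : s.T = cl (s.It 1) := (s.cl_It 1).symm
  have h3 := h_rest_ext l T ρ hn E hE1 (s.IP 1) (s.It 1)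
  rw [← e1, ← e2] at h3
  have h4 : m - ul (fun k => avg (T1.rest E) (fun k ω => vx s k ((x k).g ((ρ k).π ω))
      ((x k).l.p.π ((ρ k).π ω))) k / (S.F k).n) / 2 ≤
      ul (fun k => h ((T k).rmap (E k) ((ρ k).map ((l k).p.map (rpI (s.IP 1) k))))
        ((T k).rmap (E k) ((ρ k).map (l k).v) ⊔ (T k).rmap (E k) ((ρ k).map ((l k).p.map (rpI (s.It 1) k)))) /
          (S.F k).n) := h2.trans h3.le
  have u2 : UB (fun k => h ((T k).rmap (E k) ((ρ k).map ((l k).p.map (rpI (s.IP 1) k))))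
        ((T k).rmap (E k) ((ρ k).map (l k).v) ⊔ (T k).rmap (E k) ((ρ k).map ((l k).p.map (rpI (s.It 1) k)))) /
          (S.F k).n) := by
    have h7 := rt_rest_ext l T ρ hn E (s.IP 1) (s.It 1)
    exact (congrArg UB h7).mp (UB_rt _ _)
  have hnT : ∀ k, ((T1.rest E).F k).n = (S.F k).n := fun k => by
    have h2 : ((T1.rest E).F k).n = 1 * (T k).n := rfl
    rw [h2, one_mul, hn k]
  obtain ⟨C, hC, hub⟩ := logGG_ub s D
  have u1 : UB (fun k => avg (T1.rest E) (fun k ω => vx s k ((x k).g ((ρ k).π ω))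
      ((x k).l.p.π ((ρ k).π ω))) k / (S.F k).n) := by
    have h5 : UB (fun k => avg (T1.rest E) (fun k ω => vx s k ((x k).g ((ρ k).π ω))
        ((x k).l.p.π ((ρ k).π ω))) k / ((T1.rest E).F k).n) := by
      apply avg_UB (C := C)
      filter_upwards [hcp, hub] with k a b ω hω
      have a1 := a _ ((ρ k).supp _ ((T k).rest_supp (E k) ω hω).1)
      refine ⟨logGG_nonneg _ a1.pdM _, ?_⟩
      rw [hnT k]
      exact b _ ((x k).l.p.supp _ ((ρ k).supp _ ((T k).rest_supp (E k) ω hω).1)) _ a1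
    have h6 : (fun k => avg (T1.rest E) (fun k ω => vx s k ((x k).g ((ρ k).π ω))
        ((x k).l.p.π ((ρ k).π ω))) k / ((T1.rest E).F k).n) =
        fun k => avg (T1.rest E) (fun k ω => vx s k ((x k).g ((ρ k).π ω))
        ((x k).l.p.π ((ρ k).π ω))) k / (S.F k).n := by
      funext k
      rw [hnT k]
    rwa [h6] at h5
  have v1 := eventually_gt_of_lt_ul u1 (sub_lt_self _ he)
  have v2 := eventually_gt_of_lt_ul u2 (sub_lt_self _ (half_pos he))
  filter_upwards [v1, v2] with k a b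
  have hnk := (S.F k).pos
  rw [lt_div_iff₀ hnk] at a
  rw [lt_div_iff₀ hnk] at b
  have e3 : avg (T1.rest E) (fun k ω => vx s k ((x k).g ((ρ k).π ω))
      ((x k).l.p.π ((ρ k).π ω))) k = ∑ ω, ((T k).rest (E k)).μ ω * Real.logb 2 (GG (S.dl 1 k)
        ((x k).g ((ρ k).π ω)) (ptf s k ((x k).l.p.π ((ρ k).π ω)))) := rfl
  rw [e3] at a
  have e4 : rpI (s.IP 1) k = qP s k := rfl
  have e5 : rpI (s.It 1) k = qT s k := rfl
  rw [e4, e5] at b
  refine le_trans ?_ b.le
  have h8 := mul_le_mul_of_nonneg_right h4 hnk.le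
  linarith

/-- upper bound on events -/
theorem rob_upL {g : Sys S r} {s : Sys S m} {c Λ : ℝ} (hV : ∀ (T : Sp) (p : Pj T S) (E : ∀ k, (T.F k).Ω → Prop)
    (hE : 0 < ul (T.pr E)), lvolP (g.im p E hE) (s.im p E hE) D c ≤ Λ) {y : ∀ k, FD (S.F k) (Mon (m + 1) D)}
    (hy : (gau s D).Ad (cA g c) (cB g) y) (E : ∀ k, (y k).l.T.Ω → Prop)
    (hE : 0 < ul (fun k => (y k).l.T.pb (E k))) (η : ℝ) (hη : 0 < η) :
    ∀ᶠ k in UF, EG s y E k ≤ (Λ + η) * (S.F k).n := by
  have hE' : 0 < ul ((lb y).sp.pr E) := hE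
  have h1 := reFD_Ad s hy E hE'
  have h2 := Pool.Agent.Helper52.SL.lgd_le_lvolP (g.im (lb y).pj E hE') (s.im (lb y).pj E hE') (c := c) h1
  have h3 := hV (lb y).sp (lb y).pj E hE'
  have h4 := eventually_lt_of_ul_lt (lgd_UB (s.im (lb y).pj E hE') h1)
    (show ul (fun k => lgd (s.im (lb y).pj E hE') D (fun k => reFD (y k) (E k)) k / ((Sp.im (lb y).pj E).F k).n) <
      Λ + η by linarith)
  filter_upwards [h4] with k hk
  have hn := (S.F k).pos
  have e1 : lgd (s.im (lb y).pj E hE') D (fun k => reFD (y k) (E k)) k = EG s y E k := rfl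
  have e2 : ((Sp.im (lb y).pj E).F k).n = (S.F k).n := rfl
  rw [e1, e2, div_lt_iff₀ hn] at hk
  exact hk.le

/-- **FULLNESS IN THE VOLUME OVER EXACT LABELS**, finite form: `l` is any label without leaks in the window, `Λ` a bound
of the volume on all events -/
theorem full_finL {g : Sys S r} {s : Sys S m} (hF : Fac g s) (hD : 1 ≤ D) (hst : ST D m) {c Λ : ℝ} (h0 : 0 ≤ c)
    (h1 : c < 1) (hV : ∀ (T : Sp) (p : Pj T S) (E : ∀ k, (T.F k).Ω → Prop) (hE : 0 < ul (T.pr E)),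
      lvolP (g.im p E hE) (s.im p E hE) D c ≤ Λ) {l : Lab S} (hl : l.DM (cA g c) (cB g))
    (T : ℕ → FSp) (ρ : ∀ k, FPj (T k) (l k).T) (hn : ∀ k, (T k).n = (S.F k).n)
    (E : ∀ k, (T k).Ω → Prop) (hE : 0 < ul (fun k => (T k).pb (E k))) (e : ℝ) (he : 0 < e) :
    ∀ᶠ k in UF, (m - Λ / 2 - e) * (S.F k).n ≤
      h ((T k).rmap (E k) ((ρ k).map ((l k).p.map (qP s k))))
        ((T k).rmap (E k) ((ρ k).map (l k).v) ⊔ (T k).rmap (E k) ((ρ k).map ((l k).p.map (qT s k)))) := by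
  have hnl : ∀ k, (T k).n = (l k).T.n := fun k => (hn k).trans (l k).hn.symm
  set l' : Lab S := fun k => (l k).ext (ρ k) (hnl k) with hl'
  have hl'DM : l'.DM (cA g c) (cB g) := by
    constructor
    · refine hl.1.of_le (Eventually.of_forall fun k => FLab.leak_nonneg _ _) (Eventually.of_forall fun k => ?_)
      exact ((l k).ext_leak (ρ k) (hnl k) (cA g c k)).le
    · refine hl.2.of_le (Eventually.of_forall fun k => FLab.leak_nonneg _ _) (Eventually.of_forall fun k => ?_)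
      exact ((l k).ext_leak (ρ k) (hnl k) (cB g k)).le
  obtain ⟨x, hx⟩ := (gau s D).exists_opt (cA g c) (cB g)
  have hX := Gau.Opt.jn (gau s D) hx hl'DM
  set X : ∀ k, FD (S.F k) (Mon (m + 1) D) := fun k => (x k).jn (l' k) with hXd
  set E' : ∀ k, (X k).l.T.Ω → Prop := fun k ω => E k (((x k).l.am (l' k)).p2.π ω) with hE'
  have hpb : ∀ k, (X k).l.T.pb (E' k) = (T k).pb (E k) := fun k => (push_restμ ((x k).l.am (l' k)).p2 (E k)).2
  have hE1 : 0 < ul (fun k => (X k).l.T.pb (E' k)) := by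
    have h2 : (fun k => (X k).l.T.pb (E' k)) = fun k => (T k).pb (E k) := funext hpb
    rw [h2]
    exact hE
  have hcp : ∀ᶠ k in UF, ∀ ω, (X k).l.T.μ ω ≠ 0 → Cpd ((gau s D).cp k) ((X k).g ω) := by
    filter_upwards [hX.1 1 one_pos] with k hk ω hω using (hk.2.2.1 ω hω).1
  have hfull := fin_full (s := s) (x := X) hcp (fun T q E hE => can_full hF hD hst h0 h1 hX q E hE)
    (fun k => (X k).l.T) (fun k => idF (X k).l.T) (fun k => (X k).l.hn) E' hE1 (e / 2) (half_pos he)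
  have hup := rob_upL hV hX.1 E' hE1 e he
  filter_upwards [hfull, hup] with k a b
  have hnk := (S.F k).pos
  have a1 : (m - e / 2) * (S.F k).n - (1 / 2) * EG s X E' k ≤
      h ((X k).l.T.rmap (E' k) ((X k).l.p.map (qP s k)))
        ((X k).l.T.rmap (E' k) (X k).l.v ⊔ (X k).l.T.rmap (E' k) ((X k).l.p.map (qT s k))) := by
    rw [idF_map, idF_map, idF_map] at a
    exact a
  have e1 : ∀ y : FL (S.F k), (X k).l.p.map y = ((x k).l.am (l' k)).p2.map ((ρ k).map ((l k).p.map y)) := by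
    intro y
    have h5 : (X k).l.p.map y = ((x k).l.am (l' k)).p1.map ((x k).l.p.map y) := FPj.comp_map _ _ y
    rw [h5, (x k).l.am_map (l' k)]
    have h6 : (l' k).p.map y = (ρ k).map ((l k).p.map y) := FPj.comp_map _ _ y
    rw [h6]
  have e2 : ((x k).l.am (l' k)).p2.map ((ρ k).map (l k).v) ≤ (X k).l.v := fc_mono (jK_le (x k) (l' k))
  rw [e1, e1] at a1
  have a2 := a1.trans (h_anti (sup_le_sup_right ((X k).l.T.rmap_mono (E' k) e2) _))
  set lT : FLab (T k) := ⟨(X k).l.T, ((x k).l.am (l' k)).p2, (X k).l.hn.trans (hn k).symm, ⊤⟩ with hlT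
  have e3 : ∀ y : FL (T k), (lT.rst (E k)).p.map ((T k).rmap (E k) y) =
      (X k).l.T.rmap (E' k) (((x k).l.am (l' k)).p2.map y) := fun y => by
    induction y using fc_ind
    rfl
  have h10 := (lT.rst (E k)).p.h_map ((T k).rmap (E k) ((ρ k).map ((l k).p.map (qP s k))))
    ((T k).rmap (E k) ((ρ k).map (l k).v) ⊔ (T k).rmap (E k) ((ρ k).map ((l k).p.map (qT s k))))
  rw [(lT.rst (E k)).p.map_sup, e3, e3, e3] at h10
  refine le_trans ?_ (a2.trans (le_of_eq h10))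
  have h9 : (1 / 2) * EG s X E' k ≤ (1 / 2) * ((Λ + e) * (S.F k).n) :=
    mul_le_mul_of_nonneg_left b (by norm_num)
  linarith

/-- **FULLNESS IN THE ROBUST VOLUME OVER EXACT LABELS**, finite form: `l` is any label without leaks in the window -/
theorem full_fin {g : Sys S r} {s : Sys S m} (hF : Fac g s) (hD : 1 ≤ D) (hst : ST D m) {c : ℝ} (h0 : 0 ≤ c)
    (h1 : c < 1) (hV : RobV g s D c) {l : Lab S} (hl : l.DM (cA g c) (cB g))
    (T : ℕ → FSp) (ρ : ∀ k, FPj (T k) (l k).T) (hn : ∀ k, (T k).n = (S.F k).n)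
    (E : ∀ k, (T k).Ω → Prop) (hE : 0 < ul (fun k => (T k).pb (E k))) (e : ℝ) (he : 0 < e) :
    ∀ᶠ k in UF, (m - lvolP g s D c / 2 - e) * (S.F k).n ≤
      h ((T k).rmap (E k) ((ρ k).map ((l k).p.map (qP s k))))
        ((T k).rmap (E k) ((ρ k).map (l k).v) ⊔ (T k).rmap (E k) ((ρ k).map ((l k).p.map (qT s k)))) :=
  full_finL hF hD hst h0 h1 hV hl T ρ hn E hE e he

/-! ### extensions of the space over the label -/

section

variable (l : Lab S) {T : Sp} (q : Pj T (l.ovr 1 one_pos))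

/-- an extension of the space over a label, as an extension of the space of the label -/
def unT (k : ℕ) : FSp := { T.F k with Z := Setoid.comap (q.π k) (l k).T.Z }

def unP (k : ℕ) : FPj (unT l q k) (l k).T where
  π := q.π k
  law := q.law k
  hZ := fun _ _ _ _ => Iff.rfl

theorem unT_n (k : ℕ) : (unT l q k).n = (S.F k).n := by
  have h1 : (T.F k).n = 1 * (l k).T.n := q.hn k
  have h2 : (unT l q k).n = (T.F k).n := rfl
  rw [h2, h1, one_mul, (l k).hn]

theorem rt_rest_un (E : ∀ k, (T.F k).Ω → Prop) (A B : S.Inf) :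
    (T.rest E).rt (restI E (q.mapI (l.upI 1 one_pos A))).1 (restI E (q.mapI (l.upI 1 one_pos B))).1 =
      fun k => h ((unT l q k).rmap (E k) ((unP l q k).map ((l k).p.map (rpI A k))))
        ((unT l q k).rmap (E k) ((unP l q k).map (l k).v) ⊔
          (unT l q k).rmap (E k) ((unP l q k).map ((l k).p.map (rpI B k)))) / (S.F k).n := by
  funext k
  have hn' : ((T.rest E).F k).n = (S.F k).n := unT_n l q k
  unfold Sp.rt
  rw [hn']
  congr 1
  have e1 : (unT l q k).rmap (E k) ((unP l q k).map (l k).v) ⊔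
      (unT l q k).rmap (E k) ((unP l q k).map ((l k).p.map (rpI B k))) =
      fc (F := (unT l q k).rest (E k)) (Setoid.comap (q.π k) (l k).V ⊓
        Setoid.comap (q.π k) (Setoid.comap (l k).p.π (B.1 k))) := rfl
  have e2 : (unT l q k).rmap (E k) ((unP l q k).map ((l k).p.map (rpI A k))) =
      fc (F := (unT l q k).rest (E k)) (Setoid.comap (q.π k) (Setoid.comap (l k).p.π (A.1 k))) := rfl
  rw [e1, e2, h_fc]
  show ((unT l q k).rest (E k)).e (Setoid.comap (q.π k) (Setoid.comap (l k).p.π (A.1 k)))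
    (Setoid.comap (q.π k) (Setoid.comap (l k).p.π (B.1 k)) ⊓ (T.F k).Z) = _
  apply ((unT l q k).rest (E k)).e_congr_right
  intro ω ω' a b
  have a1 : (T.F k).μ ω ≠ 0 := ((unT l q k).rest_supp (E k) ω a).1
  have b1 : (T.F k).μ ω' ≠ 0 := ((unT l q k).rest_supp (E k) ω' b).1
  have h1 : (T.F k).Z ω ω' ↔ ((l k).V ⊓ (l k).T.Z) (q.π k ω) (q.π k ω') := q.hZ k ω ω' a1 b1
  constructor
  · intro h
    have h2 := h1.mp h.2
    exact ⟨⟨h2.1, h.1⟩, h2.2⟩
  · intro h
    exact ⟨h.1.2, h1.mpr ⟨h.1.1, h.2⟩⟩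

end

/-- **FULLNESS IN THE VOLUME OVER EXACT LABELS**: `l` is any label without leaks in the window, `Λ` a bound of the volume
on all events -/
theorem full_dmL {g : Sys S r} {s : Sys S m} (hF : Fac g s) (hD : 1 ≤ D) (hst : ST D m) {c Λ : ℝ} (h0 : 0 ≤ c)
    (h1 : c < 1) (hV : ∀ (T : Sp) (p : Pj T S) (E : ∀ k, (T.F k).Ω → Prop) (hE : 0 < ul (T.pr E)),
      lvolP (g.im p E hE) (s.im p E hE) D c ≤ Λ) {l : Lab S} (hl : l.DM (cA g c) (cB g))
    {T : Sp} (q : Pj T (l.ovr 1 one_pos)) (E : ∀ k, (T.F k).Ω → Prop) (hE : 0 < ul (T.pr E)) :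
    m - Λ / 2 ≤
      h (restL E hE (q.map (up1 l (s.P.dg 1)))) (restL E hE (q.map (up1 l s.T))) := by
  have e1 : s.P.dg 1 = cl (s.IP 1) := (s.cl_IP 1).symm
  have e2 : s.T = cl (s.It 1) := (s.cl_It 1).symm
  rw [e1, e2]
  have h2 : h (restL E hE (q.map (up1 l (cl (s.IP 1))))) (restL E hE (q.map (up1 l (cl (s.It 1))))) =
      h (cl (restI E (q.mapI (l.upI 1 one_pos (s.IP 1))))) (cl (restI E (q.mapI (l.upI 1 one_pos (s.It 1))))) := rfl
  rw [h2, h_cl]
  have u : UB ((T.rest E).rt (restI E (q.mapI (l.upI 1 one_pos (s.IP 1)))).1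
    (restI E (q.mapI (l.upI 1 one_pos (s.It 1)))).1) := UB_rt _ _
  rw [rt_rest_un l q E (s.IP 1) (s.It 1)] at u ⊢
  apply le_of_forall_pos_le_add
  intro e he
  have h3 := full_finL hF hD hst h0 h1 hV hl (unT l q) (unP l q) (unT_n l q) E hE e he
  have h4 : m - Λ / 2 - e ≤ _ := ge_of_tendsto (ul_tendsto u) (h3.mono fun k hk => by
    rw [le_div_iff₀ (S.F k).pos]
    exact hk)
  linarith

/-- **FULLNESS IN THE ROBUST VOLUME OVER EXACT LABELS**: `l` is any label without leaks in the window -/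
theorem full_dm {g : Sys S r} {s : Sys S m} (hF : Fac g s) (hD : 1 ≤ D) (hst : ST D m) {c : ℝ} (h0 : 0 ≤ c)
    (h1 : c < 1) (hV : RobV g s D c) {l : Lab S} (hl : l.DM (cA g c) (cB g))
    {T : Sp} (q : Pj T (l.ovr 1 one_pos)) (E : ∀ k, (T.F k).Ω → Prop) (hE : 0 < ul (T.pr E)) :
    m - lvolP g s D c / 2 ≤
      h (restL E hE (q.map (up1 l (s.P.dg 1)))) (restL E hE (q.map (up1 l s.T))) :=
  full_dmL hF hD hst h0 h1 hV hl q E hE

end

end Pool.Agent.Helper3.H3
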