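import Pool.Agent.Helper91.GR.Ltp
import Pool.Agent.Helper83.NSA.End
import Pool.Agent.Helper3.H3.Full

/-! B_H3: fullness of the base `M = (y, R)` over exact labels, on all events, from the rich coordinate `y`: the slab
`R = F(t, y)` of depth `la` and the cell of the window are all that a label knows about the point. -/

set_option autoImplicit false

namespace Pool.Agent.Helper3.H3

open Finset Filter Topology Matrix Pool.Agent.Helper69.RK Pool.Agent.Helper31.EC Pool.Agent.Helper31.EC.Sp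
open Pool.Agent.Helper42.NS Pool.Agent.Helper40.EL Pool.Agent.Helper40.NSK Pool.Agent.Helper52.KP
open Pool.Agent.Helper19.S12 Pool.Agent.Helper91.GR
open Pool.Agent.Helper3.SG (Fac)
open Pool.Agent.Helper59.EV (ST)

noncomputable section

variable {S : Sp} {m : ℕ}

/-! ### richness of a coordinate on events of events -/

/-- `h(y_r(x) | P, t)` -/
def ryc (s : Sys S m) (y : Fin m) (r : ℝ) : ℝ := h (TR.dg (TR.cor s.x y) r) (lB s)

/-- the cells of a coordinate of the direction -/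
def kxc (X : FSy m) (y : Fin m) (r : ℝ) : Setoid X.F.Ω :=
  Setoid.ker fun ω => Sp.cell (X.dl r) (fun _ : Fin 1 => X.x ω y)

theorem ryc_eq (s : Sys S m) (y : Fin m) (r : ℝ) :
    ryc s y r = ul (fun k => (s.fin k).q (kxc (s.fin k) y r) ((s.fin k).kP 1 ⊓ (s.fin k).kt 1)) := by
  unfold ryc
  rw [← cl_B]
  have e1 : TR.dg (TR.cor s.x y) r = Sp.cl (((TR.vec fun _ : Fin 1 => TR.cor s.x y).bdd r).toInf) :=
    io_eq ((TR.vec fun _ : Fin 1 => TR.cor s.x y).bdd r)
  rw [e1, h_cl]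
  rfl

theorem ryc_congr {T : Sp} {s : Sys S m} {u : Sys T m} (hf : ∀ k, u.fin k = s.fin k) (y : Fin m) (r : ℝ) :
    ryc u y r = ryc s y r := by
  rw [ryc_eq, ryc_eq]
  have e : (fun k => (u.fin k).q (kxc (u.fin k) y r) ((u.fin k).kP 1 ⊓ (u.fin k).kt 1)) =
      fun k => (s.fin k).q (kxc (s.fin k) y r) ((s.fin k).kP 1 ⊓ (s.fin k).kt 1) := by
    funext k
    rw [hf k]
  rw [e]

theorem ry_im (s : Sys S m) (y : Fin m) (r : ℝ) {T : Sp} (p : Pj T S) (E : ∀ k, (T.F k).Ω → Prop)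
    (hE : 0 < ul (T.pr E)) : h (restL E hE (p.map (TR.dg (TR.cor s.x y) r))) (restL E hE (p.map (lB s))) =
      ryc (s.im p E hE) y r := by
  have e4 : restL E hE (p.map (TR.dg (TR.cor s.x y) r)) = (imq p E).map (TR.dg (TR.cor (s.im p E hE).x y) r) := by
    have e1 : TR.dg (TR.cor s.x y) r = Sp.cl (((TR.vec fun _ : Fin 1 => TR.cor s.x y).bdd r).toInf) :=
      io_eq ((TR.vec fun _ : Fin 1 => TR.cor s.x y).bdd r)
    have e2 : TR.dg (TR.cor (s.im p E hE).x y) r =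
        Sp.cl (((TR.vec fun _ : Fin 1 => TR.cor (s.im p E hE).x y).bdd r).toInf) :=
      io_eq ((TR.vec fun _ : Fin 1 => TR.cor (s.im p E hE).x y).bdd r)
    rw [e1, e2]
    rfl
  have e5 : restL E hE (p.map (lB s)) = (imq p E).map (lB (s.im p E hE)) := by
    rw [← cl_B, ← cl_B]
    rfl
  rw [e4, e5, Pj.h_map]
  rfl

theorem ryl_iff {s : Sys S m} {y : Fin m} : RYl s y ↔ ∃ g u : ℝ, 0 < g ∧ 0 < u ∧
    ∀ (T : Sp) (p : Pj T S) (E : ∀ k, (T.F k).Ω → Prop) (hE : 0 < ul (T.pr E)) (r : ℝ), 0 ≤ r → r ≤ u →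
      g * r ≤ ryc (s.im p E hE) y r := by
  unfold RYl
  constructor
  · rintro ⟨g, u, h1, h2, h3⟩
    refine ⟨g, u, h1, h2, fun T p E hE r a b => ?_⟩
    rw [← ry_im]
    exact h3 T p E hE r a b
  · rintro ⟨g, u, h1, h2, h3⟩
    refine ⟨g, u, h1, h2, fun T p E hE r a b => ?_⟩
    rw [ry_im]
    exact h3 T p E hE r a b

/-- restrictions to events of extensions -/
theorem RYl_im {s : Sys S m} {y : Fin m} (h : RYl s y) {T : Sp} (p : Pj T S) (E : ∀ k, (T.F k).Ω → Prop)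
    (hE : 0 < ul (T.pr E)) : RYl (s.im p E hE) y := by
  rw [ryl_iff] at h ⊢
  obtain ⟨g, u, h1, h2, h3⟩ := h
  refine ⟨g, u, h1, h2, fun T' p' E' hE' r a b => ?_⟩
  obtain ⟨W, q, D, hD, _, h4⟩ := exists_tow s p E hE p' E' hE'
  rw [← ryc_congr h4]
  exact h3 W q D hD r a b

theorem RobSl_im {s : Sys S 3} {z : Fin 3} (h : RobSl s z) {T : Sp} (p : Pj T S) (E : ∀ k, (T.F k).Ω → Prop)
    (hE : 0 < ul (T.pr E)) : RobSl (s.im p E hE) z := by
  have h1 : RobustG (fun j : Fin 2 => SJ (z.succAbove j) {0, (z.succAbove (1 - j)).succ}) s := h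
  exact h1.im p E hE

/-! ### fullness -/

/-- the volume of the base on events -/
theorem vol_all {s : Sys S 3} {z : Fin 3} {j : Fin 2} (hL : RobustG (fun i : Fin 3 => Pool.Agent.Helper52.SL.GDP (selM i) 1) s)
    (hS : RobSl s z) (hRY : RYl s (z.succAbove (1 - j))) {c : ℝ} (h0 : 0 ≤ c) (h1 : c < 1)
    {T : Sp} (p : Pj T S) (E : ∀ k, (T.F k).Ω → Prop) (hE : 0 < ul (T.pr E)) :
    Pool.Agent.Helper52.SL.lvolP (s.im p E hE) ((prI s z).im p E hE) 1 c ≤
      2 * (c + la s (z.succAbove j) {0, (z.succAbove (1 - j)).succ} c) := by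
  have h2 := vol_ry' (s := s.im p E hE) (z := z) (j := j) (hL.im p E hE) (RobSl_im hS p E hE) (RYl_im hRY p E hE) h0 h1
  rw [la_eq_of_psi (fun c σ => hS j T p E hE c σ) c] at h2
  exact h2

/-- **B_H3 over exact labels**: with the rich coordinate `y = z.succAbove (1 - j)`, `R = z.succAbove j` -/
theorem full_pr {s : Sys S 3} (hst : ST 1 2) {z : Fin 3} {j : Fin 2}
    (hL : RobustG (fun i : Fin 3 => Pool.Agent.Helper52.SL.GDP (selM i) 1) s) (hS : RobSl s z) (hRY : RYl s (z.succAbove (1 - j)))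
    {c : ℝ} (h0 : 0 ≤ c) (h1 : c < 1) {l : Lab S} (hl : DMc s c l) {T : Sp} (q : Pj T (l.ovr 1 one_pos))
    (E : ∀ k, (T.F k).Ω → Prop) (hE : 0 < ul (T.pr E)) :
    (1 - c) + (1 - la s (z.succAbove j) {0, (z.succAbove (1 - j)).succ} c) ≤
      h (restL E hE (q.map (up1 l ((prI s z).P.dg 1)))) (restL E hE (q.map (up1 l (prI s z).T))) := by
  have hF : Fac s (prI s z) := Fac.pr s _ _ _ _
  have h2 := full_dmL (D := 1) hF le_rfl hst h0 h1 (Λ := 2 * (c + la s (z.succAbove j) {0, (z.succAbove (1 - j)).succ} c))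
    (fun T p E hE => vol_all hL hS hRY h0 h1 p E hE) hl q E hE
  have e1 : ((2 : ℕ) : ℝ) = 2 := by norm_num
  rw [e1] at h2
  linarith

/-- the digits of the point of the projection -/
theorem prI_P_dg (s : Sys S 3) (z : Fin 3) (j : Fin 2) (r : ℝ) : (prI s z).P.dg r =
    TR.dg (TR.cor s.P (z.succAbove (1 - j))) r ⊔ TR.dg (TR.cor s.P (z.succAbove j)) r := by
  have h1 : (prI s z).P = TR.vec (fun i : Fin 2 => TR.cor s.P (z.succAbove i)) := by
    rw [Pool.Agent.Helper83.NSA.prI_P]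
    rfl
  rw [h1, TR.vec_dg_eq, Fin.univ_succ]
  fin_cases j
  · simp [sup_comm]
  · simp

/-- **B_H3**: `(1 - c) + (1 - la_R c) ≤ h(y, R | l, t)` over every label without leaks in the window, on all events of all
extensions; `y = z.succAbove (1 - j)` rich, `R = z.succAbove j` -/
theorem full_ry {s : Sys S 3} (hst : ST 1 2) {z : Fin 3} {j : Fin 2}
    (hL : RobustG (fun i : Fin 3 => Pool.Agent.Helper52.SL.GDP (selM i) 1) s) (hS : RobSl s z)
    (hRY : RYl s (z.succAbove (1 - j))) {c : ℝ} (h0 : 0 ≤ c) (h1 : c < 1) {l : Lab S} (hl : DMc s c l) {T : Sp}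
    (q : Pj T (l.ovr 1 one_pos)) (E : ∀ k, (T.F k).Ω → Prop) (hE : 0 < ul (T.pr E)) :
    (1 - c) + (1 - la s (z.succAbove j) {0, (z.succAbove (1 - j)).succ} c) ≤
      h (restL E hE (q.map (up1 l (TR.dg (TR.cor s.P (z.succAbove (1 - j))) 1 ⊔
        TR.dg (TR.cor s.P (z.succAbove j)) 1)))) (restL E hE (q.map (up1 l s.T))) := by
  have h2 := full_pr hst hL hS hRY h0 h1 hl q E hE
  rw [prI_P_dg s z j] at h2
  exact h2

/-- the hypothesis `full` of the box, on all events of all extensions of the base -/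
theorem full_im {s : Sys S 3} (hst : ST 1 2) {z : Fin 3} {j : Fin 2}
    (hL : RobustG (fun i : Fin 3 => Pool.Agent.Helper52.SL.GDP (selM i) 1) s) (hS : RobSl s z)
    (hRY : RYl s (z.succAbove (1 - j))) {c : ℝ} (h0 : 0 ≤ c) (h1 : c < 1) {T : Sp} (p : Pj T S)
    (E : ∀ k, (T.F k).Ω → Prop) (hE : 0 < ul (T.pr E)) {l : Lab (Sp.im p E)} (hl : DMc (s.im p E hE) c l) :
    (1 - c) + (1 - la s (z.succAbove j) {0, (z.succAbove (1 - j)).succ} c) ≤
      h (up1 l (TR.dg (TR.cor (s.im p E hE).P (z.succAbove (1 - j))) 1 ⊔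
        TR.dg (TR.cor (s.im p E hE).P (z.succAbove j)) 1)) (up1 l (s.im p E hE).T) := by
  have ht : Typ (S := l.ovr 1 one_pos) (fun _ _ => True) := Typ_true
  have h2 := full_ry (s := s.im p E hE) hst (z := z) (j := j) (hL.im p E hE) (RobSl_im hS p E hE) (RYl_im hRY p E hE)
    h0 h1 hl (Pj.id (l.ovr 1 one_pos)) (fun _ _ => True) (ul_pr_typ_pos _ ht)
  rw [la_eq_of_psi (fun c σ => hS j T p E hE c σ) c, Pj.id_map, Pj.id_map, h_restL_typ _ ht] at h2
  exact h2

end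

end Pool.Agent.Helper3.H3
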