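import Pool.Agent.Helper98.FR.Inp
import Pool.Agent.Helper30.UNS.Bxu

/-! The field `full` of the corner of case B at a window: in the space over the label of the window `i0` the visible
digits of `M = (t, y, R)` are full over the label of a finer window, on all events of all extensions. -/

set_option autoImplicit false

namespace Pool.Agent.Helper3.H3

open Finset Filter Topology Pool.Agent.Helper69.RK Pool.Agent.Helper31.EC
open Pool.Agent.Helper80.HCI Pool.Agent.Helper60.CS Pool.Agent.Helper98.FR Pool.Agent.Helper30.UNS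
open Pool.Agent.Helper79.NF Pool.Agent.Helper31.NSB Pool.Agent.Helper40.EL Pool.Agent.Helper52.KP

noncomputable section

open Sp QS

variable {S : Sp}

/-- the visible digits of `M` are full over a label known to the partition of the finer window `i` -/
theorem robge_Mb (B : BD S) (i0 i : ℕ) {e : ℝ} (he : 0 < e) (hV : ∀ k, B.V i k ≤ B.V i0 k) (h1 : B.q i0 + e ≤ 1)
    (h2 : B.lam i0 + e ≤ 1) (κ : (B.Sj i0 e he).L) (hκ : chgL (zc (B.V i0) he (B.V i)) 1 one_pos κ = ⊥) :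
    Slow.RobGe (Mb B i0 he) κ ((2 * (B.q i0 + e - B.q i) + (B.lam i0 + e - B.lam i)) / e) := by
  intro W p E hE
  have a1 := ps_Ma_ge (W := W) (p := p) (E := E) (hE := hE) (i := i) (he := he) (B := B) (i0 := i0) hV
  have a2 := Ma_Mb (W := W) (p := p) (E := E) (hE := hE) (he := he) (B := B) (i0 := i0) h1 h2
  have a3 : H (ps (zc (B.V i0) he (B.V i)) p E hE (Ma B i0 he)) ≤
      H (ps (zc (B.V i0) he (B.V i)) p E hE (Mb B i0 he)) +
        h (ps (zc (B.V i0) he (B.V i)) p E hE (Ma B i0 he)) (ps (zc (B.V i0) he (B.V i)) p E hE (Mb B i0 he)) := by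
    rw [← H_chain]
    exact H_mono le_sup_right
  have a4 := ps_le (V := zc (B.V i0) he (B.V i)) (p := p) (E := E) (hE := hE) (Ma B i0 he) (Mb B i0 he)
  have a5 : H (ps (zc (B.V i0) he (B.V i)) p E hE (Mb B i0 he)) ≤ h (ph p E hE (Mb B i0 he)) (ph p E hE κ) := by
    have b1 := ps_le (V := zc (B.V i0) he (B.V i)) (p := p) (E := E) (hE := hE) (Mb B i0 he) κ
    rw [ps_bot hκ, h_bot] at b1
    exact b1
  have a6 : (2 * (B.q i0 + e - B.q i) + (B.lam i0 + e - B.lam i)) / e =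
      ((1 - B.q i) + (1 - B.q i) + (1 - B.lam i)) / e -
        ((1 - (B.q i0 + e)) / e + (1 - (B.q i0 + e)) / e + (1 - (B.lam i0 + e)) / e) := by
    ring
  show _ ≤ h (ph p E hE (Mb B i0 he)) (ph p E hE κ)
  rw [a6]
  linarith

/-- `M` of the corner -/
theorem rd_M {B : BD S} (D : LD B) (i0 : ℕ) (e : ℝ) (he : 0 < e) (ηn : ℝ) (hη : ηn ≤ B.eta i0) (ix : ℝ → ℕ) :
    (D.rd i0 e he ηn hη ix).M = Mb B i0 he := by
  have h1 : (D.rd i0 e he ηn hη ix).M = dg (QS.mk (B.tT i0 e he)) 1 ⊔ dg (QS.mk (B.yT i0 e he)) 1 ⊔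
    dg (QS.mk (B.RT i0 e he)) 1 := rfl
  rw [h1, dg_mk _ le_rfl, dg_mk _ le_rfl, dg_mk _ le_rfl]
  rfl

/-- **FIELD `full`** near a window `c` at which `lam` is differentiable -/
theorem exists_full {lamf : ℝ → ℝ} {c w1 σ ε : ℝ} (hl : HasDerivAt lamf w1 c) (hc : c < 1) (hl1 : lamf c < 1)
    (hσ : 0 ≤ σ) (hε : 0 < ε) :
    ∃ e0 : ℝ, 0 < e0 ∧ ∀ (e : ℝ) (he : 0 < e), e ≤ e0 → ∀ (S : Sp) (B : BD S) (D : LD B) (i0 : ℕ) (ix : ℝ → ℕ)
      (Sc : Set ℝ) (etaf : ℝ → ℝ) (tol : ℝ), Wnd B i0 ix Sc lamf etaf c σ e tol → ∀ (ηn : ℝ) (hη : ηn ≤ B.eta i0), ∀ r ∈ Sc,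
      (∀ k, B.V (ix r) k ≤ B.V i0 k) → ∀ κ : (B.Sj i0 e he).L,
      chgL (zc (B.V i0) he (B.V (ix r))) 1 one_pos κ = ⊥ →
      Slow.RobGe (D.rd i0 e he ηn hη ix).M κ (3 - (2 + w1) * r - ε) := by
  obtain ⟨e1, he1, h1⟩ := incr_e hl hσ hε
  refine ⟨min e1 (min (1 - c) (1 - lamf c)), lt_min he1 (lt_min (by linarith) (by linarith)), ?_⟩
  intro e he hee S B D i0 ix Sc etaf tol W ηn hη r hr hV κ hκ
  have k1 := hee.trans (min_le_left _ _)
  have k2 := (hee.trans (min_le_right _ _)).trans (min_le_left _ _)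
  have k3 := (hee.trans (min_le_right _ _)).trans (min_le_right _ _)
  have h2 := h1 e he k1 r (by rw [abs_of_nonneg (W.nn r hr)]; exact W.le r hr)
  have h3 := (abs_le.1 h2).2
  have e1 : B.q i0 = c := W.q0
  have e2 : B.lam i0 = lamf c := by rw [W.lam, W.q0]
  have e3 : B.q (ix r) = c + e * r := W.ix r hr
  have e4 : B.lam (ix r) = lamf (c + r * e) := by rw [W.lam, e3, mul_comm]
  rw [rd_M]
  intro T p E hE
  refine le_trans ?_ (robge_Mb B i0 (ix r) he hV (by rw [e1]; linarith) (by rw [e2]; linarith) κ hκ T p E hE)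
  rw [le_div_iff₀ he, e1, e2, e3, e4]
  nlinarith

/-- **FIELD `full`** of the trimmed corner, for the input of the diagonal -/
theorem full_rinG {lamf : ℝ → ℝ} {c w1 σ ε : ℝ} (hl : HasDerivAt lamf w1 c) (hc : c < 1) (hl1 : lamf c < 1)
    (hσ : 0 ≤ σ) (hε : 0 < ε) :
    ∃ e0 : ℝ, 0 < e0 ∧ ∀ (T : ℕ → Sp) (B : ∀ j, BD (T j)) (D : ∀ j, LD (B j)) (i0 : ℕ → ℕ) (e : ℕ → ℝ)
      (he : ∀ j, 0 < e j) (ηn : ℕ → ℝ) (hη : ∀ j, ηn j ≤ (B j).eta (i0 j)) (ix : ℕ → ℝ → ℕ) {Sc : Set ℝ}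
      {σ' C : ℝ} (hix : ∀ j, ∀ r ∈ Sc, (B j).q (ix j r) ≤ (B j).q (ix j σ'))
      (hT : ∀ j, Typ (S := (B j).Sj (i0 j) (e j) (he j))
        (Lgc (S := (B j).Sj (i0 j) (e j) (he j)) ((B j).V (ix j σ')) C))
      (g : ∀ j, Fin 9 → Sc → TR ((B j).Sj (i0 j) (e j) (he j)))
      (hg : ∀ (i : Fin 9) (r : Sc) (j : ℕ), ∀ᶠ k in UF, FLit (((B j).Sj (i0 j) (e j) (he j)).F k)
        (((D j).rd (i0 j) (e j) (he j) (ηn j) (hη j) (ix j)).K r k) ((g j i r).1 k)) (etaf : ℝ → ℝ) (tol : ℝ) (j : ℕ),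
      e j ≤ e0 → Wnd (B j) (i0 j) (ix j) Sc lamf etaf c σ (e j) tol → ∀ r ∈ Sc,
      (∀ k, (B j).V (ix j r) k ≤ (B j).V (i0 j) k) →
      Slow.RobGe ((rinG T B D i0 e he ηn hη ix hix hT g hg).H j).M
        (((rinG T B D i0 e he ηn hη ix hix hT g hg).inp.H j).κ r) (3 - (2 + w1) * r - ε) := by
  obtain ⟨e0, he0, h⟩ := exists_full hl hc hl1 hσ hε
  refine ⟨e0, he0, ?_⟩
  intro T B D i0 e he ηn hη ix Sc σ' C hix hT g hg etaf tol j hj W r hrS hV
  refine h (e j) (he j) hj (T j) (B j) (D j) (i0 j) (ix j) Sc etaf tol W (ηn j) (hη j) r hrS hV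
    (((rinG T B D i0 e he ηn hη ix hix hT g hg).inp.H j).κ r) ?_
  exact (rinG T B D i0 e he ηn hη ix hix hT g hg).chg_bot (j := j) (zc ((B j).V (i0 j)) (he j) ((B j).V (ix j r)))
    hrS (Eventually.of_forall fun k ω ω' _ _ _ h => Quotient.sound h)

end

end Pool.Agent.Helper3.H3
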